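import Mathlib

/-!
# The chromatic number of the degree-`(k+t)` vertices of a `k`-tree

For every `t ≥ 0` the largest chromatic number of the subgraph induced by the vertices of degree
`k + t` of a `k`-tree of order at least `k + t + 2` (over all `k ≥ 1`) is exactly `t + 1`.
-/

set_option autoImplicit false

namespace Pool.Agent.Results.MP_26d357_co.ExactValue

/-- `k`-trees: the complete graph on `k + 1` vertices is a `k`-tree, and a graph `G` is a `k`-tree
if it has a vertex `x` whose neighbourhood is a clique with exactly `k` vertices and the graph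
obtained by deleting `x` is a `k`-tree. -/
inductive IsKTree (k : ℕ) : ∀ {V : Type}, SimpleGraph V → Prop
  | complete {V : Type} (G : SimpleGraph V) (hV : Nat.card V = k + 1)
      (hG : ∀ u v, u ≠ v → G.Adj u v) : IsKTree k G
  | add {V : Type} (G : SimpleGraph V) (x : V) (hG : IsKTree k (G.induce {v | v ≠ x}))
      (hx : (G.neighborSet x).ncard = k) (hc : G.IsClique (G.neighborSet x)) : IsKTree k G

/-- The set `V_i(G)` of the vertices of degree exactly `i`. -/
def degreeSet {V : Type} (G : SimpleGraph V) (i : ℕ) : Set V := {v | (G.neighborSet v).ncard = i}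

/-- The chromatic numbers `χ(V_{k+t}(G))` of all `k`-trees `G`, `k ≥ 1`, of order at least
`k + t + 2`. -/
def values (t : ℕ) : Set ℕ∞ :=
  {c | ∃ (k : ℕ) (V : Type) (_ : Fintype V) (G : SimpleGraph V), 1 ≤ k ∧ IsKTree k G ∧
    k + t + 2 ≤ Fintype.card V ∧ c = (G.induce (degreeSet G (k + t))).chromaticNumber}

/-- `g(t)`: the supremum of `χ(V_{k+t}(G))` over all `k ≥ 1` and all `k`-trees `G` of order at
least `k + t + 2`. -/
noncomputable def g (t : ℕ) : ℕ∞ := sSup (values t)

variable {V : Type} {k : ℕ}

lemma finite_of {G : SimpleGraph V} (h : IsKTree k G) : Finite V := by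
  induction h with
  | complete G hV hG =>
    exact Nat.finite_of_card_ne_zero (by omega)
  | add G x hG hx hc ih =>
    rename_i W
    have h1 : (Set.univ : Set W) = insert x {v | v ≠ x} := by
      ext v
      simp only [Set.mem_univ, Set.mem_insert_iff, Set.mem_ofPred_eq, true_iff]
      exact em _
    have h2 : ({v | v ≠ x} : Set W).Finite := Set.toFinite _
    rw [← Set.finite_univ_iff, h1]
    exact h2.insert x

/-- The part of a set in the graph without `x`. -/
def rest (x : V) (Q : Set V) : Set {v : V | v ≠ x} := Subtype.val ⁻¹' Q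

lemma rest_ncard (x : V) (Q : Set V) : (rest x Q).ncard = (Q \ {x}).ncard := by
  rw [← Set.ncard_image_of_injective _ Subtype.val_injective]
  congr 1
  ext v
  simp only [rest, Set.mem_image, Set.mem_preimage, Subtype.exists, Set.mem_ofPred_eq,
    exists_and_left, exists_prop, Set.mem_sdiff, Set.mem_singleton_iff]
  constructor
  · rintro ⟨w, hw, hwx, rfl⟩
    exact ⟨hw, hwx⟩
  · rintro ⟨h1, h2⟩
    exact ⟨v, h1, h2, rfl⟩

lemma deg_rest (G : SimpleGraph V) (x : V) (w : {v : V | v ≠ x}) :
    ((G.induce {v | v ≠ x}).neighborSet w).ncard = (G.neighborSet w.1 \ {x}).ncard := by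
  rw [← rest_ncard]
  rfl

lemma deg_rest_adj [Finite V] (G : SimpleGraph V) (x : V) (w : {v : V | v ≠ x})
    (h : G.Adj w.1 x) :
    ((G.induce {v | v ≠ x}).neighborSet w).ncard + 1 = (G.neighborSet w.1).ncard := by
  rw [deg_rest]
  exact Set.ncard_sdiff_singleton_add_one h (Set.toFinite _)

lemma deg_rest_nadj (G : SimpleGraph V) (x : V) (w : {v : V | v ≠ x})
    (h : ¬ G.Adj w.1 x) :
    ((G.induce {v | v ≠ x}).neighborSet w).ncard = (G.neighborSet w.1).ncard := by
  rw [deg_rest]
  congr 1
  exact Set.sdiff_singleton_eq_self h

lemma deg_rest_le [Finite V] (G : SimpleGraph V) (x : V) (w : {v : V | v ≠ x}) :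
    ((G.induce {v | v ≠ x}).neighborSet w).ncard ≤ (G.neighborSet w.1).ncard := by
  rw [deg_rest]
  exact Set.ncard_le_ncard Set.sdiff_subset (Set.toFinite _)

lemma clique_rest {G : SimpleGraph V} (x : V) {Q : Set V} (h : G.IsClique Q) :
    (G.induce {v | v ≠ x}).IsClique (rest x Q) := by
  intro u hu v hv huv
  exact h hu hv (fun e => huv (Subtype.ext e))

/-- Cliques of a `k`-tree have at most `k + 1` vertices. -/
lemma clique_le {G : SimpleGraph V} (h : IsKTree k G) (Q : Set V) (hQ : G.IsClique Q) :
    Q.ncard ≤ k + 1 := by
  induction h with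
  | complete G hV hG =>
    rename_i W
    have : Finite W := Nat.finite_of_card_ne_zero (by omega)
    rw [← hV, ← Set.ncard_univ]
    exact Set.ncard_le_ncard (Set.subset_univ _) (Set.toFinite _)
  | add G x hG hx hc ih =>
    rename_i W
    have hfin : Finite W := finite_of (IsKTree.add G x hG hx hc)
    by_cases hxQ : x ∈ Q
    · have : Q ⊆ insert x (G.neighborSet x) := by
        intro v hv
        by_cases hvx : v = x
        · exact Or.inl hvx
        · exact Or.inr (hQ hxQ hv (Ne.symm hvx))
      calc Q.ncard ≤ _ := Set.ncard_le_ncard this (Set.toFinite _)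
        _ ≤ _ := Set.ncard_insert_le _ _
        _ = _ := by rw [hx]
    · have h1 := ih (rest x Q) (clique_rest x hQ)
      rw [rest_ncard, Set.sdiff_singleton_eq_self hxQ] at h1
      exact h1

/-- All degrees of a `k`-tree are at least `k`. -/
lemma le_deg {G : SimpleGraph V} (h : IsKTree k G) (v : V) : k ≤ (G.neighborSet v).ncard := by
  induction h with
  | complete G hV hG =>
    rename_i W
    have : Finite W := Nat.finite_of_card_ne_zero (by omega)
    have h1 : G.neighborSet v = Set.univ \ {v} := by
      ext w
      simp only [SimpleGraph.mem_neighborSet, Set.mem_sdiff, Set.mem_univ,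
        Set.mem_singleton_iff, true_and]
      exact ⟨fun h => (G.ne_of_adj h).symm, fun h => hG _ _ (Ne.symm h)⟩
    rw [h1]
    have := Set.ncard_sdiff_singleton_add_one (Set.mem_univ v) (Set.toFinite _)
    rw [Set.ncard_univ] at this
    omega
  | add G x hG hx hc ih =>
    rename_i W
    have hfin : Finite W := finite_of (IsKTree.add G x hG hx hc)
    by_cases hvx : v = x
    · rw [hvx, hx]
    · exact le_trans (ih ⟨v, hvx⟩) (deg_rest_le G x ⟨v, hvx⟩)

lemma card_rest [Finite V] (x : V) : Nat.card {v : V | v ≠ x} + 1 = Nat.card V := by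
  have h1 : ({v : V | v ≠ x} : Set V) = Set.univ \ {x} := by
    ext v
    simp
  have h2 : Nat.card {v : V | v ≠ x} = ({v : V | v ≠ x} : Set V).ncard := rfl
  rw [h2, h1, Set.ncard_sdiff_singleton_add_one (Set.mem_univ x) (Set.toFinite _), Set.ncard_univ]

/-- The key bound: in a `k`-tree of order at least `k + t + 2`, at most `t + 1` pairwise adjacent
vertices have degree at most `k + t`. -/
lemma key {G : SimpleGraph V} (h : IsKTree k G) (t : ℕ) (hn : k + t + 2 ≤ Nat.card V) (Q : Set V)
    (hQ : G.IsClique Q) (hd : ∀ v ∈ Q, (G.neighborSet v).ncard ≤ k + t) : Q.ncard ≤ t + 1 := by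
  induction h generalizing t with
  | complete G hV hG => omega
  | add G x hG hx hc ih =>
    rename_i W
    have hfin : Finite W := finite_of (IsKTree.add G x hG hx hc)
    have hcard := card_rest x
    by_cases hxQ : x ∈ Q
    · have h1 := rest_ncard x Q
      have h2 := Set.ncard_sdiff_singleton_add_one hxQ (Set.toFinite _)
      have hadj : ∀ w ∈ rest x Q, G.Adj w.1 x := fun w hw => hQ hw hxQ w.2
      rcases Nat.eq_zero_or_pos t with rfl | ht
      · -- no other vertex
        have h3 : rest x Q = ∅ := by
          rw [Set.eq_empty_iff_forall_notMem]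
          intro w hw
          have h4 := deg_rest_adj G x w (hadj w hw)
          have h5 := le_deg hG w
          have h6 := hd w.1 hw
          omega
        rw [h3, Set.ncard_empty] at h1
        omega
      · have h3 := ih (t - 1) (by omega) (rest x Q) (clique_rest x hQ) (by
          intro w hw
          have h4 := deg_rest_adj G x w (hadj w hw)
          have h6 := hd w.1 hw
          omega)
        omega
    · have h1 := rest_ncard x Q
      rw [Set.sdiff_singleton_eq_self hxQ] at h1
      by_cases hn' : k + t + 2 ≤ Nat.card {v : W | v ≠ x}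
      · have h3 := ih t hn' (rest x Q) (clique_rest x hQ) (by
          intro w hw
          exact le_trans (deg_rest_le G x w) (hd w.1 hw))
        omega
      · have hn2 : Nat.card {v : W | v ≠ x} = k + t + 1 := by omega
        -- split the rest of `Q` according to the degree in the smaller graph
        set G' := G.induce {v | v ≠ x} with hG'
        set U : Set {v : W | v ≠ x} := {w | w ∈ rest x Q ∧ k + t ≤ (G'.neighborSet w).ncard} with hU
        set R : Set {v : W | v ≠ x} := {w | w ∈ rest x Q ∧ (G'.neighborSet w).ncard < k + t}
          with hR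
        have hsplit : rest x Q = U ∪ R := by
          ext w
          simp only [hU, hR, Set.mem_union, Set.mem_ofPred_eq]
          constructor
          · intro hw
            rcases Nat.lt_or_ge (G'.neighborSet w).ncard (k + t) with h | h
            · exact Or.inr ⟨hw, h⟩
            · exact Or.inl ⟨hw, h⟩
          · rintro (h | h)
            · exact h.1
            · exact h.1
        have hU1 : U.ncard ≤ 1 := by
          rw [Set.ncard_le_one_iff]
          intro a b ha hb
          by_contra hab
          -- `a` and `b` are adjacent to all other vertices of `G'` but not to `x`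
          have huniv : ∀ w ∈ U, ∀ u : {v : W | v ≠ x}, u ≠ w → G'.Adj w u := by
            intro w hw u huw
            have h4 : G'.neighborSet w ⊆ Set.univ \ {w} := by
              intro y hy
              exact ⟨Set.mem_univ _, fun e => G'.ne_of_adj hy e.symm⟩
            have h5 := Set.ncard_sdiff_singleton_add_one (Set.mem_univ w) (Set.toFinite _)
            rw [Set.ncard_univ] at h5
            have h6 : (Set.univ \ {w} : Set {v : W | v ≠ x}).ncard ≤ (G'.neighborSet w).ncard := by
              have := hw.2
              omega
            have h7 := Set.eq_of_subset_of_ncard_le h4 h6 (Set.toFinite _)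
            have h8 : u ∈ G'.neighborSet w := by
              rw [h7]
              exact ⟨Set.mem_univ _, huw⟩
            exact h8
          have hnx : ∀ w ∈ U, ¬ G.Adj w.1 x := by
            intro w hw hadj
            have h4 : (G'.neighborSet w).ncard + 1 = (G.neighborSet w.1).ncard :=
              deg_rest_adj G x w hadj
            have h5 := hd w.1 hw.1
            have h6 := hw.2
            omega
          -- a clique with `k + 2` vertices
          have hcl : G'.IsClique (insert a (insert b (rest x (G.neighborSet x)))) := by
            intro u hu v hv huv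
            rw [Set.mem_insert_iff, Set.mem_insert_iff] at hu hv
            rcases hu with rfl | rfl | hu
            · exact huniv _ ha v huv.symm
            · exact huniv _ hb v huv.symm
            · rcases hv with rfl | rfl | hv
              · exact (huniv _ ha u huv).symm
              · exact (huniv _ hb u huv).symm
              · exact clique_rest x hc hu hv huv
          have h9 := clique_le hG _ hcl
          have h10 : b ∉ rest x (G.neighborSet x) := fun h => hnx b hb (G.symm.symm _ _ h)
          have h11 : a ∉ insert b (rest x (G.neighborSet x)) := by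
            rw [Set.mem_insert_iff]
            rintro (h | h)
            · exact hab h
            · exact hnx a ha (G.symm.symm _ _ h)
          rw [Set.ncard_insert_of_notMem h11 (Set.toFinite _),
            Set.ncard_insert_of_notMem h10 (Set.toFinite _), rest_ncard,
            Set.sdiff_singleton_eq_self (show x ∉ G.neighborSet x from
              SimpleGraph.irrefl G), hx] at h9
          omega
        have hRcl : G'.IsClique R := (clique_rest x hQ).subset (fun w hw => hw.1)
        have hR1 : R.ncard ≤ t := by
          rcases Nat.eq_zero_or_pos t with rfl | ht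
          · have : R = ∅ := by
              rw [Set.eq_empty_iff_forall_notMem]
              intro w hw
              have h5 := le_deg hG w
              have h6 := hw.2
              omega
            rw [this, Set.ncard_empty]
          · have h3 := ih (t - 1) (by omega) R hRcl (by
              intro w hw
              have h6 := hw.2
              omega)
            omega
        have h12 : (rest x Q).ncard ≤ U.ncard + R.ncard := by
          rw [hsplit]
          exact Set.ncard_union_le _ _
        omega

/-- A set of vertices all of whose cliques have at most `t + 1` vertices can be coloured with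
`t + 1` colours. -/
lemma color {G : SimpleGraph V} (h : IsKTree k G) (t : ℕ) (S : Set V)
    (hS : ∀ Q ⊆ S, G.IsClique Q → Q.ncard ≤ t + 1) :
    ∃ f : V → Fin (t + 1), ∀ u ∈ S, ∀ v ∈ S, G.Adj u v → f u ≠ f v := by
  classical
  induction h with
  | complete G hV hG =>
    rename_i W
    have hfin : Finite W := Nat.finite_of_card_ne_zero (by omega)
    have h1 : S.ncard ≤ t + 1 := hS S subset_rfl (fun u _ v _ huv => hG u v huv)
    have : Fintype S := Fintype.ofFinite _
    have h2 : Fintype.card S ≤ Fintype.card (Fin (t + 1)) := by
      rw [Fintype.card_fin, ← Nat.card_eq_fintype_card]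
      exact h1
    obtain ⟨e⟩ := Function.Embedding.nonempty_of_card_le h2
    refine ⟨fun v => if hv : v ∈ S then e ⟨v, hv⟩ else 0, ?_⟩
    intro u hu v hv huv
    beta_reduce
    rw [dif_pos hu, dif_pos hv]
    intro hcon
    have := e.injective hcon
    exact G.ne_of_adj huv (congrArg Subtype.val this)
  | add G x hG hx hc ih =>
    rename_i W
    have hfin : Finite W := finite_of (IsKTree.add G x hG hx hc)
    obtain ⟨f, hf⟩ := ih (rest x S) (by
      intro Q hQ hcl
      have h1 : (Subtype.val '' Q : Set W) ⊆ S := by
        rintro _ ⟨w, hw, rfl⟩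
        exact hQ hw
      have h2 : G.IsClique (Subtype.val '' Q : Set W) := by
        rintro _ ⟨u, hu, rfl⟩ _ ⟨v, hv, rfl⟩ huv
        exact hcl hu hv (fun e => huv (congrArg _ e))
      have h3 := hS _ h1 h2
      rwa [Set.ncard_image_of_injective _ Subtype.val_injective] at h3)
    by_cases hxS : x ∈ S
    · -- a free colour for `x`
      set A : Set W := G.neighborSet x ∩ S with hA
      have h1 : G.IsClique (insert x A) := by
        intro u hu v hv huv
        rw [Set.mem_insert_iff] at hu hv
        rcases hu with rfl | hu
        · rcases hv with rfl | hv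
          · exact absurd rfl huv
          · exact hv.1
        · rcases hv with rfl | hv
          · exact G.symm.symm _ _ hu.1
          · exact hc hu.1 hv.1 huv
      have h2 := hS (insert x A) (by
        rintro v (rfl | hv)
        · exact hxS
        · exact hv.2) h1
      have h3 : x ∉ A := fun h => SimpleGraph.irrefl G h.1
      rw [Set.ncard_insert_of_notMem h3 (Set.toFinite _)] at h2
      have h4 : ∃ i : Fin (t + 1), i ∉ (f '' (rest x A)) := by
        by_contra hcon
        push Not at hcon
        have h5 : (Set.univ : Set (Fin (t + 1))) ⊆ f '' (rest x A) := fun i _ => hcon i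
        have h6 := Set.ncard_le_ncard h5 (Set.toFinite _)
        have h7 := Set.ncard_image_le (f := f) (Set.toFinite (rest x A))
        rw [rest_ncard, Set.sdiff_singleton_eq_self h3] at h7
        rw [Set.ncard_univ, Nat.card_eq_fintype_card, Fintype.card_fin] at h6
        omega
      obtain ⟨i, hi⟩ := h4
      refine ⟨fun v => if hv : v ≠ x then f ⟨v, hv⟩ else i, ?_⟩
      intro u hu v hv huv
      beta_reduce
      by_cases hux : u = x
      · subst hux
        have hvx : v ≠ u := (G.ne_of_adj huv).symm
        rw [dif_neg (by simp), dif_pos hvx]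
        intro hcon
        exact hi ⟨⟨v, hvx⟩, ⟨huv, hv⟩, hcon.symm⟩
      · by_cases hvx : v = x
        · subst hvx
          rw [dif_pos hux, dif_neg (by simp)]
          intro hcon
          exact hi ⟨⟨u, hux⟩, ⟨huv.symm, hu⟩, hcon⟩
        · rw [dif_pos hux, dif_pos hvx]
          exact hf ⟨u, hux⟩ hu ⟨v, hvx⟩ hv huv
    · refine ⟨fun v => if hv : v ≠ x then f ⟨v, hv⟩ else 0, ?_⟩
      intro u hu v hv huv
      have hux : u ≠ x := fun e => hxS (e ▸ hu)
      have hvx : v ≠ x := fun e => hxS (e ▸ hv)
      beta_reduce
      rw [dif_pos hux, dif_pos hvx]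
      exact hf ⟨u, hux⟩ hu ⟨v, hvx⟩ hv huv

lemma upper {G : SimpleGraph V} (h : IsKTree k G) (t : ℕ) (hn : k + t + 2 ≤ Nat.card V) :
    (G.induce (degreeSet G (k + t))).chromaticNumber ≤ (t + 1 : ℕ) := by
  obtain ⟨f, hf⟩ := color h t (degreeSet G (k + t)) (by
    intro Q hQ hcl
    exact key h t hn Q hcl (fun v hv => le_of_eq (hQ hv)))
  apply SimpleGraph.Colorable.chromaticNumber_le
  refine ⟨SimpleGraph.Coloring.mk (fun v => f v.1) ?_⟩
  intro u v huv
  exact hf u.1 u.2 v.1 v.2 huv

/-! ### The example -/

lemma isKTree_iso {V W : Type} {G : SimpleGraph V} {H : SimpleGraph W} (e : G ≃g H)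
    (h : IsKTree k G) : IsKTree k H := by
  induction h generalizing W with
  | complete G hV hG =>
    apply IsKTree.complete
    · rw [← hV]
      exact Nat.card_congr e.symm.toEquiv
    · intro u v huv
      have h1 := hG (e.symm u) (e.symm v) (fun he => huv (e.symm.injective he))
      rwa [← e.map_adj_iff, e.apply_symm_apply, e.apply_symm_apply] at h1
  | add G x hG hx hc ih =>
    rename_i X
    have himg : H.neighborSet (e x) = e '' (G.neighborSet x) := by
      ext w
      simp only [SimpleGraph.mem_neighborSet, Set.mem_image]
      constructor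
      · intro h
        refine ⟨e.symm w, ?_, e.apply_symm_apply w⟩
        rw [← e.map_adj_iff, e.apply_symm_apply]
        exact h
      · rintro ⟨y, hy, rfl⟩
        rw [e.map_adj_iff]
        exact hy
    apply IsKTree.add H (e x)
    · apply ih
      exact
        { toFun := fun v => ⟨e v.1, fun h => v.2 (e.injective h)⟩
          invFun := fun w => ⟨e.symm w.1, fun h => w.2 (by
            have h1 := congrArg e h
            rwa [e.apply_symm_apply] at h1)⟩
          left_inv := fun v => Subtype.ext (e.symm_apply_apply v.1)
          right_inv := fun w => Subtype.ext (e.apply_symm_apply w.1)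
          map_rel_iff' := by
            intro u v
            exact e.map_adj_iff }
    · rw [himg, Set.ncard_image_of_injective _ e.injective, hx]
    · rw [himg]
      rintro _ ⟨u, hu, rfl⟩ _ ⟨v, hv, rfl⟩ huv
      rw [e.map_adj_iff]
      exact hc hu hv (fun h => huv (congrArg _ h))

/-- The graph on `{0, …, k} ∪ {new_0, …, new_{s-1}}`: the old vertices form a clique and `new_b`
is adjacent to all old vertices except `b`. -/
def ex (k s : ℕ) : SimpleGraph (Fin (k + 1) ⊕ Fin s) where
  Adj x y := match x, y with
    | Sum.inl a, Sum.inl b => a ≠ b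
    | Sum.inl a, Sum.inr b => (a : ℕ) ≠ b
    | Sum.inr a, Sum.inl b => (a : ℕ) ≠ b
    | Sum.inr _, Sum.inr _ => False
  symm := ⟨by
    rintro (a | a) (b | b) h
    · exact Ne.symm h
    · exact Ne.symm h
    · exact Ne.symm h
    · exact h⟩
  loopless := ⟨by
    rintro (a | a) h
    · exact h rfl
    · exact h⟩

lemma ex_neighbor_new (k s : ℕ) (b : Fin s) :
    (ex k s).neighborSet (Sum.inr b) = Sum.inl '' {a : Fin (k + 1) | (b : ℕ) ≠ a} := by
  ext x
  rcases x with a | a
  · simp only [SimpleGraph.mem_neighborSet, Set.mem_image, Set.mem_ofPred_eq, Sum.inl.injEq,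
      exists_eq_right]
    exact Iff.rfl
  · simp only [SimpleGraph.mem_neighborSet, Set.mem_image, Set.mem_ofPred_eq, reduceCtorEq,
      and_false, exists_false, iff_false]
    exact id

lemma ncard_ne (n c : ℕ) (hc : c < n) : {a : Fin n | c ≠ (a : ℕ)}.ncard = n - 1 := by
  have h1 : {a : Fin n | c ≠ (a : ℕ)} = Set.univ \ {⟨c, hc⟩} := by
    ext a
    simp only [Set.mem_ofPred_eq, Set.mem_sdiff, Set.mem_univ, Set.mem_singleton_iff, true_and]
    rw [Fin.ext_iff]
    exact ne_comm
  have h2 := Set.ncard_sdiff_singleton_add_one (Set.mem_univ (⟨c, hc⟩ : Fin n)) (Set.toFinite _)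
  rw [Set.ncard_univ, Nat.card_eq_fintype_card, Fintype.card_fin] at h2
  rw [h1]
  omega

lemma ex_isKTree (k s : ℕ) (hs : s ≤ k + 1) : IsKTree k (ex k s) := by
  induction s with
  | zero =>
    apply IsKTree.complete
    · simp
    · rintro (a | a) (b | b) h
      · exact fun e => h (congrArg _ e)
      · exact b.elim0
      · exact a.elim0
      · exact a.elim0
  | succ s ih =>
    apply IsKTree.add (ex k (s + 1)) (Sum.inr (Fin.last s))
    · refine isKTree_iso ?_ (ih (by omega))
      exact
        { toFun := fun x => ⟨Sum.map id Fin.castSucc x, by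
            rcases x with a | a
            · exact Sum.inl_ne_inr
            · intro h
              exact (Fin.castSucc_lt_last a).ne (Sum.inr_injective h)⟩
          invFun := fun y => match y with
            | ⟨Sum.inl a, _⟩ => Sum.inl a
            | ⟨Sum.inr b, h⟩ => Sum.inr ⟨b, lt_of_le_of_ne (Nat.lt_succ_iff.mp b.isLt) (fun e =>
                h (congrArg Sum.inr (Fin.ext e)))⟩
          left_inv := by
            rintro (a | a)
            · rfl
            · rfl
          right_inv := by
            rintro ⟨a | a, h⟩
            · rfl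
            · rfl
          map_rel_iff' := by
            rintro (a | a) (b | b)
            · exact Iff.rfl
            · exact Iff.rfl
            · exact Iff.rfl
            · exact Iff.rfl }
    · rw [ex_neighbor_new, Set.ncard_image_of_injective _ Sum.inl_injective,
        ncard_ne (k + 1) (Fin.last s) (by rw [Fin.val_last]; omega)]
      rfl
    · rw [ex_neighbor_new]
      rintro _ ⟨u, hu, rfl⟩ _ ⟨v, hv, rfl⟩ huv
      exact fun e => huv (congrArg _ e)

lemma ex_deg (k s : ℕ) (a : Fin (k + 1)) (ha : (a : ℕ) < s) :
    ((ex k s).neighborSet (Sum.inl a)).ncard = k + (s - 1) := by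
  have h1 : (ex k s).neighborSet (Sum.inl a) =
      Sum.inl '' {b : Fin (k + 1) | (a : ℕ) ≠ b} ∪ Sum.inr '' {b : Fin s | (a : ℕ) ≠ b} := by
    ext x
    rcases x with b | b
    · simp only [SimpleGraph.mem_neighborSet, Set.mem_union, Set.mem_image, Set.mem_ofPred_eq,
        Sum.inl.injEq, exists_eq_right, reduceCtorEq, and_false, exists_false, or_false]
      show a ≠ b ↔ _
      rw [Ne, Fin.ext_iff]
    · simp only [SimpleGraph.mem_neighborSet, Set.mem_union, Set.mem_image, Set.mem_ofPred_eq,
        Sum.inr.injEq, exists_eq_right, reduceCtorEq, and_false, exists_false, false_or]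
      exact Iff.rfl
  rw [h1, Set.ncard_union_eq _ (Set.toFinite _) (Set.toFinite _),
    Set.ncard_image_of_injective _ Sum.inl_injective,
    Set.ncard_image_of_injective _ Sum.inr_injective, ncard_ne (k + 1) a a.isLt, ncard_ne s a ha]
  · rfl
  · rw [Set.disjoint_left]
    rintro _ ⟨b, _, rfl⟩ ⟨c, _, h⟩
    exact Sum.inr_ne_inl h

lemma lower (t : ℕ) : ∃ c ∈ values t, ((t + 1 : ℕ) : ℕ∞) ≤ c := by
  refine ⟨_, ⟨t + 1, _, inferInstance, ex (t + 1) (t + 1), by omega,
    ex_isKTree _ _ (by omega), ?_, rfl⟩, ?_⟩
  · simp
    omega
  · set G := ex (t + 1) (t + 1) with hG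
    have hmem : ∀ a : Fin (t + 1), (Sum.inl (Fin.castSucc a) : Fin (t + 1 + 1) ⊕ Fin (t + 1)) ∈
        degreeSet G (t + 1 + t) := by
      intro a
      show (G.neighborSet _).ncard = _
      rw [hG, ex_deg (t + 1) (t + 1) (Fin.castSucc a) (by
        rw [Fin.val_castSucc]
        exact a.isLt)]
      omega
    let φ : Fin (t + 1) → (degreeSet G (t + 1 + t)) := fun a => ⟨_, hmem a⟩
    have hφ : Function.Injective φ := by
      intro a b hab
      have h1 := congrArg Subtype.val hab
      exact Fin.castSucc_injective _ (Sum.inl_injective h1)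
    have hcl : (G.induce (degreeSet G (t + 1 + t))).IsClique
        ((Finset.univ.image φ : Finset _) : Set (degreeSet G (t + 1 + t))) := by
      intro u hu v hv huv
      rw [Finset.mem_coe, Finset.mem_image] at hu hv
      obtain ⟨a, -, rfl⟩ := hu
      obtain ⟨b, -, rfl⟩ := hv
      show Fin.castSucc a ≠ Fin.castSucc b
      intro e
      exact huv (congrArg φ (Fin.castSucc_injective _ e))
    have h1 := hcl.card_le_chromaticNumber
    rw [Finset.card_image_of_injective _ hφ, Finset.card_univ, Fintype.card_fin] at h1
    exact h1

/-- `g(t) = t + 1` for every `t`; so the known upper bound `(t² + t + 2) / 2` is not best possible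
for any `t ≥ 2`. -/
theorem result :
    (∀ t : ℕ, g t = t + 1) ∧ ∀ t : ℕ, 2 ≤ t → 2 * g t < t ^ 2 + t + 2 := by
  have main : ∀ t : ℕ, g t = ((t + 1 : ℕ) : ℕ∞) := by
    intro t
    apply le_antisymm
    · apply sSup_le
      rintro c ⟨k, V, hV, G, -, hG, hn, rfl⟩
      apply upper hG t
      rwa [Nat.card_eq_fintype_card]
    · obtain ⟨c, hc, hle⟩ := lower t
      exact le_trans hle (le_sSup hc)
  refine ⟨fun t => by rw [main t]; push_cast; rfl, fun t ht => ?_⟩
  rw [main t]
  have h1 : 2 * (t + 1) < t ^ 2 + t + 2 := by nlinarith
  exact_mod_cast h1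

end Pool.Agent.Results.MP_26d357_co.ExactValue
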